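import Mathlib
import Pool.Agent.TwoWell.GDefs

/-!
# Adding a decoupled column: algebra and laminates
-/

set_option autoImplicit false

open MeasureTheory Matrix

namespace Pool.Agent.Y357.TW

open GClosure

variable {n : ℕ}

/-- the index embedding -/
def up (p : Ix n) : Ix (n + 1) := (p.1, p.2.castSucc)

/-- the first `n` columns -/
def lo (E : Mt (n + 1)) : Mt n := fun p => E (up p)

/-- a last column is added -/
def sn (E : Mt n) (e : Fin 2 → ℝ) : Mt (n + 1) := fun p =>
  Fin.snoc (α := fun _ => ℝ) (fun j => E (p.1, j)) (e p.1) p.2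

theorem sn_up (E : Mt n) (e : Fin 2 → ℝ) (p : Ix n) : sn E e (up p) = E p := by
  unfold sn up
  simp only [Fin.snoc_castSucc]

theorem sn_last (E : Mt n) (e : Fin 2 → ℝ) (i : Fin 2) : sn E e (i, Fin.last n) = e i := by
  unfold sn
  simp only [Fin.snoc_last]

theorem lo_sn (E : Mt n) (e : Fin 2 → ℝ) : lo (sn E e) = E := by
  funext p
  exact sn_up E e p

theorem cases' {P : Ix (n + 1) → Prop} (h1 : ∀ p : Ix n, P (up p))
    (h2 : ∀ i : Fin 2, P (i, Fin.last n)) : ∀ q, P q := by
  rintro ⟨i, j⟩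
  refine Fin.lastCases ?_ (fun j => ?_) j
  · exact h2 i
  · exact h1 (i, j)

theorem sum_ix (F : Ix (n + 1) → ℝ) :
    ∑ q, F q = (∑ p : Ix n, F (up p)) + ∑ i : Fin 2, F (i, Fin.last n) := by
  rw [Fintype.sum_prod_type, Fintype.sum_prod_type, ← Finset.sum_add_distrib]
  refine Finset.sum_congr rfl fun i _ => ?_
  rw [Fin.sum_univ_castSucc]
  rfl

theorem dot_ix (F G : Mt (n + 1)) :
    F ⬝ᵥ G = lo F ⬝ᵥ lo G + ∑ i : Fin 2, F (i, Fin.last n) * G (i, Fin.last n) := by
  unfold dotProduct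
  rw [sum_ix]
  rfl

/-- the tensor `L` with a decoupled last column, on which it is the identity -/
noncomputable def ext (L : Tens n) : Tens (n + 1) :=
  Matrix.of fun p => sn (fun q => sn (fun p' => L p' q) (fun _ => 0) p)
    (fun i => if p = (i, Fin.last n) then 1 else 0)

theorem ext_apply (L : Tens n) (p q : Ix (n + 1)) : ext L p q =
    sn (fun q => sn (fun p' => L p' q) (fun _ => 0) p)
      (fun i => if p = (i, Fin.last n) then 1 else 0) q := rfl

theorem up_ne (p : Ix n) (i : Fin 2) : up p ≠ (i, Fin.last n) := by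
  intro h
  have := congrArg Prod.snd h
  exact absurd this (Fin.castSucc_lt_last p.2).ne

theorem ext_uu (L : Tens n) (p q : Ix n) : ext L (up p) (up q) = L p q := by
  rw [ext_apply, sn_up, sn_up]

theorem ext_ul (L : Tens n) (p : Ix n) (i : Fin 2) : ext L (up p) (i, Fin.last n) = 0 := by
  rw [ext_apply, sn_last, if_neg (up_ne p i)]

theorem ext_lu (L : Tens n) (p : Ix n) (i : Fin 2) : ext L (i, Fin.last n) (up p) = 0 := by
  rw [ext_apply, sn_up, sn_last]

theorem ext_ll (L : Tens n) (i k : Fin 2) :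
    ext L (i, Fin.last n) (k, Fin.last n) = if i = k then 1 else 0 := by
  rw [ext_apply, sn_last]
  congr 1
  exact propext ⟨fun h => congrArg Prod.fst h, fun h => by rw [h]⟩

theorem ext_mul_up (L : Tens n) (E : Mt (n + 1)) (p : Ix n) :
    (ext L *ᵥ E) (up p) = (L *ᵥ lo E) p := by
  show (fun q => ext L (up p) q) ⬝ᵥ E = (fun q => L p q) ⬝ᵥ lo E
  unfold dotProduct
  rw [sum_ix]
  simp only [ext_uu, ext_ul, zero_mul, Finset.sum_const_zero, add_zero]
  rfl

theorem ext_mul_last (L : Tens n) (E : Mt (n + 1)) (i : Fin 2) :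
    (ext L *ᵥ E) (i, Fin.last n) = E (i, Fin.last n) := by
  show (fun q => ext L (i, Fin.last n) q) ⬝ᵥ E = _
  unfold dotProduct
  rw [sum_ix]
  simp only [ext_lu, ext_ll, zero_mul, Finset.sum_const_zero, zero_add, ite_mul, one_mul]
  rw [Finset.sum_ite_eq, if_pos (Finset.mem_univ _)]

theorem lo_ext (L : Tens n) (E : Mt (n + 1)) : lo (ext L *ᵥ E) = L *ᵥ lo E := by
  funext p
  exact ext_mul_up L E p

theorem ext_posDef {L : Tens n} (h : L.PosDef) : (ext L).PosDef := by
  refine Matrix.PosDef.of_dotProduct_mulVec_pos ?_ ?_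
  · refine Matrix.IsHermitian.ext ?_
    intro p q
    revert p q
    refine cases' (fun p => ?_) (fun i => ?_)
    · refine cases' (fun q => ?_) (fun k => ?_)
      · rw [ext_uu, ext_uu]
        exact h.1.apply p q
      · rw [ext_ul, ext_lu]
        simp
    · refine cases' (fun q => ?_) (fun k => ?_)
      · rw [ext_ul, ext_lu]
        simp
      · rw [ext_ll, ext_ll]
        by_cases hik : i = k
        · simp [hik]
        · have : ¬ k = i := fun h => hik h.symm
          simp [hik, this]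
  · intro x hx
    have e1 : star x = x := by
      funext p
      simp
    rw [e1, dot_ix, lo_ext]
    simp only [ext_mul_last]
    have h2 : 0 ≤ ∑ i : Fin 2, x (i, Fin.last n) * x (i, Fin.last n) :=
      Finset.sum_nonneg fun i _ => mul_self_nonneg _
    by_cases h3 : lo x = 0
    · rw [h3]
      simp only [zero_dotProduct, zero_add]
      rcases h2.lt_or_eq with h4 | h4
      · exact h4
      · exfalso
        apply hx
        have h5 := (Finset.sum_eq_zero_iff_of_nonneg
          (fun i _ => mul_self_nonneg (x (i, Fin.last n)))).1 h4.symm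
        funext q
        revert q
        refine cases' (fun p => ?_) (fun i => ?_)
        · exact congrFun h3 p
        · exact mul_self_eq_zero.1 (h5 i (Finset.mem_univ _))
    · have h4 := h.dotProduct_mulVec_pos h3
      have e2 : star (lo x) = lo x := by
        funext p
        simp
      rw [e2] at h4
      linarith

/-- positivity of the quadratic form -/
def Pos (A : Tens n) : Prop := ∀ M : Mt n, M ≠ 0 → 0 < M ⬝ᵥ (A *ᵥ M)

theorem pos_of {L : Tens n} (h : L.PosDef) : Pos L := by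
  intro M hM
  have h4 := h.dotProduct_mulVec_pos hM
  have e2 : star M = M := by
    funext p
    simp
  rwa [e2] at h4

theorem Pos.nonneg {A : Tens n} (h : Pos A) (M : Mt n) : 0 ≤ M ⬝ᵥ (A *ᵥ M) := by
  by_cases hM : M = 0
  · rw [hM, zero_dotProduct]
  · exact (h M hM).le

theorem rank_one {v : Fin 2 → ℝ} {b : Fin n → ℝ} {J : Mt n}
    (hJ : ∀ j, ∑ i, v i * J (i, j) = 0) : (fun p : Ix n => v p.1 * b p.2) ⬝ᵥ J = 0 := by
  unfold dotProduct
  rw [Fintype.sum_prod_type_right]
  refine Finset.sum_eq_zero fun j _ => ?_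
  have : ∑ i, v i * b j * J (i, j) = b j * ∑ i, v i * J (i, j) := by
    rw [Finset.mul_sum]
    exact Finset.sum_congr rfl fun i _ => by ring
  rw [this, hJ, mul_zero]

theorem pos_layer {t : ℝ} {v : Fin 2 → ℝ} {A B C : Tens n} (hA : Pos A) (hB : Pos B)
    (ht0 : 0 ≤ t) (ht1 : t ≤ 1) (h : IsLayer t v A B C) : Pos C := by
  intro E0 hE0
  obtain ⟨EA, EB, b, h1, h2, h3, h4⟩ := h E0
  have e1 : C *ᵥ E0 = t • (A *ᵥ EA) + (1 - t) • (B *ᵥ EB) := by
    funext p
    exact h4 p
  have e2 : E0 = t • EA + (1 - t) • EB := by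
    funext p
    exact (h2 p).symm
  have e3 : EA - EB = fun p : Ix n => v p.1 * b p.2 := by
    funext p
    exact h1 p
  have e4 : (EA - EB) ⬝ᵥ (A *ᵥ EA - B *ᵥ EB) = 0 := by
    rw [e3]
    exact rank_one h3
  have e5 : E0 ⬝ᵥ (C *ᵥ E0) = t * (EA ⬝ᵥ (A *ᵥ EA)) + (1 - t) * (EB ⬝ᵥ (B *ᵥ EB)) -
      t * (1 - t) * ((EA - EB) ⬝ᵥ (A *ᵥ EA - B *ᵥ EB)) := by
    rw [e1, e2]
    simp only [add_dotProduct, dotProduct_add, smul_dotProduct, dotProduct_smul, sub_dotProduct,
      dotProduct_sub, smul_eq_mul]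
    ring
  rw [e5, e4, mul_zero, sub_zero]
  have hA' := hA.nonneg EA
  have hB' := hB.nonneg EB
  have h5 : 0 ≤ t * (EA ⬝ᵥ (A *ᵥ EA)) := mul_nonneg ht0 hA'
  have h6 : 0 ≤ (1 - t) * (EB ⬝ᵥ (B *ᵥ EB)) := mul_nonneg (by linarith) hB'
  by_contra hcon
  push Not at hcon
  have h7 : t * (EA ⬝ᵥ (A *ᵥ EA)) = 0 := by linarith
  have h8 : (1 - t) * (EB ⬝ᵥ (B *ᵥ EB)) = 0 := by linarith
  apply hE0
  rw [e2]
  have g1 : t • EA = 0 := by
    rcases mul_eq_zero.1 h7 with h | h
    · rw [h, zero_smul]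
    · by_cases hz : EA = 0
      · rw [hz, smul_zero]
      · exact absurd h (hA EA hz).ne'
  have g2 : (1 - t) • EB = 0 := by
    rcases mul_eq_zero.1 h8 with h | h
    · rw [h, zero_smul]
    · by_cases hz : EB = 0
      · rw [hz, smul_zero]
      · exact absurd h (hB EB hz).ne'
  rw [g1, g2, add_zero]

theorem layer_unique {t : ℝ} {v : Fin 2 → ℝ} {A B : Tens n} (hA : Pos A) (hB : Pos B)
    (ht0 : 0 ≤ t) (ht1 : t ≤ 1) {EA EB EA' EB' : Mt n} {b b' : Fin n → ℝ}
    (h1 : ∀ p, EA p - EB p = v p.1 * b p.2) (h1' : ∀ p, EA' p - EB' p = v p.1 * b' p.2)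
    (h2 : ∀ p, t * EA p + (1 - t) * EB p = t * EA' p + (1 - t) * EB' p)
    (h3 : ∀ j, ∑ i, v i * ((A *ᵥ EA) (i, j) - (B *ᵥ EB) (i, j)) = 0)
    (h3' : ∀ j, ∑ i, v i * ((A *ᵥ EA') (i, j) - (B *ᵥ EB') (i, j)) = 0) :
    EA = EA' ∧ EB = EB' := by
  set D : Mt n := fun p => v p.1 * (b p.2 - b' p.2) with hD
  have e1 : EA - EA' = (1 - t) • D := by
    funext p
    have a1 := h1 p
    have a2 := h1' p
    have a3 := h2 p
    show EA p - EA' p = (1 - t) * (v p.1 * (b p.2 - b' p.2))
    linear_combination (1 - t) * a1 - (1 - t) * a2 + a3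
  have e2 : EB - EB' = -(t • D) := by
    funext p
    have a1 := h1 p
    have a2 := h1' p
    have a3 := h2 p
    show EB p - EB' p = -(t * (v p.1 * (b p.2 - b' p.2)))
    linear_combination -t * a1 + t * a2 + a3
  have e3 : D ⬝ᵥ (A *ᵥ (EA - EA') - B *ᵥ (EB - EB')) = 0 := by
    refine rank_one (v := v) (b := fun j => b j - b' j) ?_
    intro j
    have a1 := h3 j
    have a2 := h3' j
    have a3 : ∑ i, v i * (A *ᵥ (EA - EA') - B *ᵥ (EB - EB')) (i, j) =
        (∑ i, v i * ((A *ᵥ EA) (i, j) - (B *ᵥ EB) (i, j))) -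
          ∑ i, v i * ((A *ᵥ EA') (i, j) - (B *ᵥ EB') (i, j)) := by
      rw [← Finset.sum_sub_distrib]
      refine Finset.sum_congr rfl fun i _ => ?_
      rw [mulVec_sub, mulVec_sub]
      simp only [Pi.sub_apply]
      ring
    rw [a3, a1, a2, sub_zero]
  rw [e1, e2] at e3
  have e4 : D ⬝ᵥ (A *ᵥ ((1 - t) • D) - B *ᵥ -(t • D)) =
      (1 - t) * (D ⬝ᵥ (A *ᵥ D)) + t * (D ⬝ᵥ (B *ᵥ D)) := by
    rw [mulVec_neg, mulVec_smul, mulVec_smul, sub_neg_eq_add, dotProduct_add, dotProduct_smul,
      dotProduct_smul, smul_eq_mul, smul_eq_mul]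
  rw [e4] at e3
  have hD0 : D = 0 := by
    by_contra hne
    have p1 := hA D hne
    have p2 := hB D hne
    rcases ht1.lt_or_eq with h | h
    · have : 0 < (1 - t) * (D ⬝ᵥ (A *ᵥ D)) := mul_pos (by linarith) p1
      have : 0 ≤ t * (D ⬝ᵥ (B *ᵥ D)) := mul_nonneg ht0 p2.le
      linarith
    · rw [h] at e3
      linarith
  rw [hD0, smul_zero] at e1 e2
  rw [neg_zero] at e2
  exact ⟨sub_eq_zero.1 e1, sub_eq_zero.1 e2⟩

/-- the compression -/
def cmp (C : Tens (n + 1)) : Tens n := Matrix.of fun p q => C (up p) (up q)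

theorem cmp_ext (L : Tens n) : cmp (ext L) = L := by
  funext p q
  exact ext_uu L p q

theorem lam {L1 L2 : Tens n} (h1 : Pos L1) (h2 : Pos L2) {f : ℝ} {C' : Tens (n + 1)}
    (h : IsLam (ext L1) (ext L2) f C') :
    ∃ C : Tens n, C' = ext C ∧ Pos C ∧ IsLam L1 L2 f C := by
  induction h with
  | one => exact ⟨L1, rfl, h1, IsLam.one⟩
  | two => exact ⟨L2, rfl, h2, IsLam.two⟩
  | layer f g t v A' B' C' hA' hB' ht0 ht1 hv hl ihA ihB =>
    obtain ⟨A, rfl, pA, lA⟩ := ihA
    obtain ⟨B, rfl, pB, lB⟩ := ihB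
    -- the structure of the layered fields
    have key : ∀ E0 : Mt (n + 1), ∃ (EA EB : Mt n) (b : Fin n → ℝ),
        (∀ p, EA p - EB p = v p.1 * b p.2) ∧
        (∀ p, t * EA p + (1 - t) * EB p = lo E0 p) ∧
        (∀ j, ∑ i, v i * ((A *ᵥ EA) (i, j) - (B *ᵥ EB) (i, j)) = 0) ∧
        (∀ p, (C' *ᵥ E0) (up p) = t * (A *ᵥ EA) p + (1 - t) * (B *ᵥ EB) p) ∧
        (∀ i, (C' *ᵥ E0) (i, Fin.last n) = E0 (i, Fin.last n)) := by
      intro E0
      obtain ⟨EA', EB', b', q1, q2, q3, q4⟩ := hl E0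
      have hb : b' (Fin.last n) = 0 := by
        have a1 := q3 (Fin.last n)
        simp only [ext_mul_last] at a1
        have a2 : ∑ i, v i * (EA' (i, Fin.last n) - EB' (i, Fin.last n)) =
            (∑ i, v i * v i) * b' (Fin.last n) := by
          rw [Finset.sum_mul]
          refine Finset.sum_congr rfl fun i _ => ?_
          rw [q1 (i, Fin.last n)]
          ring
        rw [a2] at a1
        rcases mul_eq_zero.1 a1 with h | h
        · exfalso
          apply hv
          have h5 := (Finset.sum_eq_zero_iff_of_nonneg (fun i _ => mul_self_nonneg (v i))).1 h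
          funext i
          exact mul_self_eq_zero.1 (h5 i (Finset.mem_univ _))
        · exact h
      refine ⟨lo EA', lo EB', fun j => b' j.castSucc, fun p => q1 (up p), fun p => q2 (up p),
        fun j => ?_, fun p => ?_, fun i => ?_⟩
      · have a1 := q3 j.castSucc
        have a2 : ∀ i : Fin 2, ((ext A *ᵥ EA') (i, j.castSucc) - (ext B *ᵥ EB') (i, j.castSucc)) =
            ((A *ᵥ lo EA') (i, j) - (B *ᵥ lo EB') (i, j)) := by
          intro i
          have a3 := ext_mul_up A EA' (i, j)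
          have a4 := ext_mul_up B EB' (i, j)
          rw [← a3, ← a4]
          rfl
        simp only [a2] at a1
        exact a1
      · have a1 := q4 (up p)
        rw [ext_mul_up, ext_mul_up] at a1
        exact a1
      · have a1 := q4 (i, Fin.last n)
        rw [ext_mul_last, ext_mul_last] at a1
        have a2 := q2 (i, Fin.last n)
        rw [a1, a2]
    have dep : ∀ E0 E1 : Mt (n + 1), lo E0 = lo E1 → ∀ p, (C' *ᵥ E0) (up p) = (C' *ᵥ E1) (up p) := by
      intro E0 E1 h01 p
      obtain ⟨EA, EB, b, r1, r2, r3, r4, -⟩ := key E0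
      obtain ⟨FA, FB, c, s1, s2, s3, s4, -⟩ := key E1
      obtain ⟨u1, u2⟩ := layer_unique pA pB ht0 ht1 r1 s1
        (fun p => by rw [r2 p, s2 p, h01]) r3 s3
      rw [r4, s4, u1, u2]
    have hC : C' = ext (cmp C') := by
      funext q r
      have hcol : ∀ q r, C' q r = (C' *ᵥ Pi.single r 1) q := by
        intro q r
        rw [mulVec_single_one]
        rfl
      revert q r
      refine cases' (fun p => ?_) (fun i => ?_)
      · refine cases' (fun r => ?_) (fun k => ?_)
        · rw [ext_uu]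
          rfl
        · rw [ext_ul, hcol]
          have hz : lo (Pi.single (k, Fin.last n) (1 : ℝ) : Mt (n + 1)) = lo 0 := by
            funext s
            show (Pi.single (k, Fin.last n) (1 : ℝ) : Mt (n + 1)) (up s) = 0
            exact Pi.single_eq_of_ne (up_ne s k) 1
          rw [dep _ 0 hz, mulVec_zero]
          rfl
      · intro r
        rw [hcol]
        obtain ⟨-, -, -, -, -, -, -, r5⟩ := key (Pi.single r 1)
        rw [r5 i]
        revert r
        refine cases' (fun r => ?_) (fun k => ?_)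
        · intro _
          rw [ext_lu]
          exact Pi.single_eq_of_ne (up_ne r i).symm 1
        · intro _
          rw [ext_ll]
          by_cases hik : i = k
          · rw [if_pos hik, hik, Pi.single_eq_same]
          · rw [if_neg hik]
            refine Pi.single_eq_of_ne ?_ 1
            intro h
            exact hik (congrArg Prod.fst h)
    have hL : IsLayer t v A B (cmp C') := by
      intro E0
      obtain ⟨EA, EB, b, r1, r2, r3, r4, -⟩ := key (sn E0 0)
      refine ⟨EA, EB, b, r1, fun p => ?_, r3, fun p => ?_⟩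
      · rw [r2 p, lo_sn]
      · rw [← r4 p]
        conv_rhs => rw [hC]
        rw [ext_mul_up, lo_sn]
    exact ⟨cmp C', hC, pos_layer pA pB ht0 ht1 hL,
      IsLam.layer f g t v A B (cmp C') lA lB ht0 ht1 hv hL⟩

end Pool.Agent.Y357.TW
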