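import Mathlib
import Pool.Agent.TwoWell.GFinal
import Pool.Agent.TwoWell.JK1
import Pool.Agent.Y357.TW.Alg

/-!
# Adding a decoupled column: effective tensors, the gap in all higher numbers of columns
-/

set_option autoImplicit false

open MeasureTheory Matrix

namespace Pool.Agent.Y357.TW

open GClosure

variable {n : ℕ}

theorem tens_ext (L1 L2 : Tens n) (A : Set (Fin 2 → ℝ)) (x : Fin 2 → ℝ) :
    tens (ext L1) (ext L2) A x = ext (tens L1 L2 A x) := by
  unfold tens
  split_ifs <;> rfl

/-- a zero component is added to a potential -/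
noncomputable def up0 (u : (Fin 2 → ℝ) → (Fin n → ℝ)) (x : Fin 2 → ℝ) : Fin (n + 1) → ℝ :=
  Fin.snoc (α := fun _ => ℝ) (u x) 0

theorem isPot_up0 {u : (Fin 2 → ℝ) → (Fin n → ℝ)} (hu : IsPot u) : IsPot (up0 u) := by
  refine ⟨?_, ?_⟩
  · have h := contDiff_pi.1 hu.1
    refine contDiff_pi.2 fun j => ?_
    refine Fin.lastCases ?_ (fun i => ?_) j
    · simp only [up0, Fin.snoc_last]; exact contDiff_const
    · simp only [up0, Fin.snoc_castSucc]; exact h i
  · intro x z
    unfold up0
    rw [hu.2 x z]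

theorem isPot_lo {u : (Fin 2 → ℝ) → (Fin (n + 1) → ℝ)} (hu : IsPot u) :
    IsPot (fun x (j : Fin n) => u x j.castSucc) := by
  refine ⟨?_, ?_⟩
  · have h := contDiff_pi.1 hu.1
    exact contDiff_pi.2 fun j => h j.castSucc
  · intro x z
    simp only
    rw [hu.2 x z]

theorem grad_comp {m : ℕ} {u : (Fin 2 → ℝ) → (Fin m → ℝ)} (hu : IsPot u) (x : Fin 2 → ℝ)
    (p : Ix m) : grad u x p = fderiv ℝ (fun y => u y p.2) x (Pi.single p.1 (1 : ℝ)) := by
  have hd : DifferentiableAt ℝ u x := (hu.1.differentiable (by simp)) x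
  have h1 := (hasFDerivAt_pi'.1 hd.hasFDerivAt) p.2
  rw [h1.fderiv]
  rfl

theorem lo_grad {u : (Fin 2 → ℝ) → (Fin (n + 1) → ℝ)} (hu : IsPot u) (x : Fin 2 → ℝ) :
    lo (grad u x) = grad (fun x (j : Fin n) => u x j.castSucc) x := by
  funext p
  show grad u x (up p) = _
  rw [grad_comp hu, grad_comp (isPot_lo hu)]
  rfl

theorem grad_up0 {u : (Fin 2 → ℝ) → (Fin n → ℝ)} (hu : IsPot u) (x : Fin 2 → ℝ) (p : Ix n) :
    grad (up0 u) x (up p) = grad u x p := by
  rw [grad_comp (isPot_up0 hu), grad_comp hu]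
  have e : (fun y => up0 u y (up p).2) = fun y => u y p.2 := by
    funext y
    unfold up0 up
    simp only [Fin.snoc_castSucc]
  rw [e]
  rfl

theorem grad_up0_last {u : (Fin 2 → ℝ) → (Fin n → ℝ)} (hu : IsPot u) (x : Fin 2 → ℝ)
    (i : Fin 2) : grad (up0 u) x (i, Fin.last n) = 0 := by
  rw [grad_comp (isPot_up0 hu)]
  have e : (fun y => up0 u y ((i, Fin.last n) : Ix (n + 1)).2) = fun _ => (0 : ℝ) := by
    funext y
    unfold up0
    simp only [Fin.snoc_last]
  rw [e]
  simp

theorem vol_real : (volume.restrict cell).real Set.univ = 1 := by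
  rw [Measure.real, Measure.restrict_apply_univ, volume_cell]
  rfl

instance : IsFiniteMeasure (volume.restrict cell) := by
  refine ⟨?_⟩
  rw [Measure.restrict_apply_univ, volume_cell]
  exact ENNReal.one_lt_top

theorem int_const (c : ℝ) : ∫ _ in cell, c = c := by
  rw [integral_const, vol_real, one_smul]

theorem eff_ext {L1 L2 Ls : Tens n} {A : Set (Fin 2 → ℝ)} (h : IsEff L1 L2 A Ls) :
    IsEff (ext L1) (ext L2) A (ext Ls) := by
  intro E0
  obtain ⟨E, hF, hC, hI⟩ := h (lo E0)
  set e : Fin 2 → ℝ := fun i => E0 (i, Fin.last n) with he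
  refine ⟨fun x => sn (E x) e, ⟨?_, ?_⟩, ?_, ?_⟩
  · refine cases' (fun p => ?_) (fun i => ?_)
    · simp only [sn_up]
      exact hF.1 p
    · simp only [sn_last]
      exact memLp_const _
  · intro ε hε
    obtain ⟨u, hu, hs⟩ := hF.2 ε hε
    refine ⟨up0 u, isPot_up0 hu, ?_⟩
    rw [sum_ix]
    simp only [sn_up, sn_last, grad_up0 hu, grad_up0_last hu]
    have : ∑ i : Fin 2, ∫ x in cell, (e i - E0 (i, Fin.last n) - 0) ^ 2 = 0 := by
      refine Finset.sum_eq_zero fun i _ => ?_
      rw [he]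
      simp
    rw [this, add_zero]
    exact hs
  · intro u hu
    have e1 : ∀ x, (tens (ext L1) (ext L2) A x *ᵥ sn (E x) e) ⬝ᵥ grad u x =
        (tens L1 L2 A x *ᵥ E x) ⬝ᵥ grad (fun x (j : Fin n) => u x j.castSucc) x +
          ∑ i : Fin 2, e i * grad u x (i, Fin.last n) := by
      intro x
      rw [tens_ext, dot_ix, lo_ext, lo_sn, lo_grad hu]
      simp only [ext_mul_last, sn_last]
    simp only [e1]
    have hgi : ∀ i : Fin 2, IntegrableOn (fun x => e i * grad u x (i, Fin.last n)) cell volume := by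
      intro i
      exact ((continuous_const.mul (grad_cont849 u hu (i, Fin.last n))).continuousOn).integrableOn_compact
        isCompact_cell
    have hg : IntegrableOn (fun x => ∑ i : Fin 2, e i * grad u x (i, Fin.last n)) cell volume :=
      integrable_finsetSum _ fun i _ => hgi i
    have hg0 : ∫ x in cell, ∑ i : Fin 2, e i * grad u x (i, Fin.last n) = 0 := by
      rw [integral_finsetSum]
      · refine Finset.sum_eq_zero fun i _ => ?_
        rw [integral_const_mul, int_grad849 u hu, mul_zero]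
      · intro i _
        exact hgi i
    by_cases hf : IntegrableOn (fun x => (tens L1 L2 A x *ᵥ E x) ⬝ᵥ
        grad (fun x (j : Fin n) => u x j.castSucc) x) cell volume
    · rw [integral_add hf hg, hg0, hC _ (isPot_lo hu), add_zero]
    · refine integral_undef ?_
      intro h
      apply hf
      have := h.sub hg
      refine this.congr ?_
      filter_upwards with x
      simp
  · refine cases' (fun p => ?_) (fun i => ?_)
    · simp only [tens_ext, ext_mul_up, lo_sn]
      exact hI p
    · simp only [tens_ext, ext_mul_last, sn_last]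
      rw [int_const]

theorem continuous_ext : Continuous (ext : Tens n → Tens (n + 1)) := by
  refine continuous_matrix ?_
  refine cases' (fun p => ?_) (fun i => ?_)
  · refine cases' (fun q => ?_) (fun k => ?_)
    · simp only [ext_uu]
      exact (continuous_apply q).comp (continuous_apply p)
    · simp only [ext_ul]
      exact continuous_const
  · refine cases' (fun q => ?_) (fun k => ?_)
    · simp only [ext_lu]
      exact continuous_const
    · simp only [ext_ll]
      exact continuous_const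

theorem continuous_cmp : Continuous (cmp : Tens (n + 1) → Tens n) := by
  refine continuous_matrix fun p q => ?_
  exact (continuous_apply (up q)).comp (continuous_apply (up p))

theorem gap_succ (h : ∃ (f : ℝ) (L₁ L₂ : Tens n), 0 ≤ f ∧ f ≤ 1 ∧ L₁.PosDef ∧ L₂.PosDef ∧
      ∃ Ls : Tens n, Ls ∈ Gf f L₁ L₂ ∧ Ls ∉ GLf f L₁ L₂) :
    ∃ (f : ℝ) (L₁ L₂ : Tens (n + 1)), 0 ≤ f ∧ f ≤ 1 ∧ L₁.PosDef ∧ L₂.PosDef ∧
      ∃ Ls : Tens (n + 1), Ls ∈ Gf f L₁ L₂ ∧ Ls ∉ GLf f L₁ L₂ := by
  obtain ⟨f, L1, L2, h0, h1, p1, p2, Ls, hG, hL⟩ := h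
  refine ⟨f, ext L1, ext L2, h0, h1, ext_posDef p1, ext_posDef p2, ext Ls, ?_, ?_⟩
  · refine map_mem_closure continuous_ext hG ?_
    rintro M ⟨A, hA, hv, hE⟩
    exact ⟨A, hA, hv, eff_ext hE⟩
  · intro hcon
    apply hL
    have := map_mem_closure (t := {C | IsLam L1 L2 f C}) continuous_cmp hcon (by
      rintro C' hC'
      obtain ⟨C, rfl, -, hC⟩ := lam (pos_of p1) (pos_of p2) hC'
      show IsLam L1 L2 f (cmp (ext C))
      rw [cmp_ext]
      exact hC)
    rw [cmp_ext] at this
    exact this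

end Pool.Agent.Y357.TW
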